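import Mathlib
import Pool.Agent.Helper8.LK.Defs
import Pool.Agent.Helper7.LKX.DefsX
import Pool.Agent.Helper7.LKX.SgnX
import Pool.Agent.Helper7.LKX.ArbLB
import Pool.Agent.Helper93.LK.Upper

/-!
# Exact Triangle with inspected bits and low-degree access

The model (`Pool/Agent/Helper8/LK/Defs.lean`, over `Pool/Agent/Helper22/ETModel.lean`): a
randomized adaptive algorithm of unlimited computing power that knows all edge flags. At every step
it either inspects one bit of one weight or asks a query:

* value queries: compute an arbitrary real polynomial of degree at most `d` in all the weights as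
  an opaque handle; all equalities among the values computed so far are known;
* sign queries: the sign of an integer affine form in at most `r` weights with coefficients at most
  `n ^ c` that is not determined by the triangle sums (`Moves`) or has at most one negative or at
  most one positive coefficient.

Either every bit is a `{0,1}`-valued function of the weight modulo `q ≤ n ^ e`, where `q` may depend
on the flags and the random bits (`Periodic`), or the bits are arbitrary `{0,1}`-valued functions of
the weights and no sign query is determined by the triangle sums (`Free`).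

Theorem: if at most `B` bits are inspected in total, adaptively, any number of any weight, then at
least `n ^ 3 / (2 ^ (2 ^ 18 B / n ^ 2 + 42) (d + 1) log^3 n)` queries are needed; so the exponent is
3 as long as `B = o(n ^ 2 log n)`. If at most `b` bits are inspected of every weight, up to
`n ^ 2 / 2 ^ 17` exceptional ordered pairs that may be inspected completely, then at least
`n ^ 3 / (2 ^ (b + 42) (d + 1) log^3 n)` queries are needed, and
`2 ^ 12 n ^ 3 b log n / (d 2 ^ b) + 2` value queries suffice; so an exponential saving in `B / n ^ 2`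
is the truth.

Idea of the proof. The bits inspected so far determine a box of weights (of residues of the noise
that the hard instances carry, for periodic bits); the likelihood ratio of the law planted at a
triangle `T` against the null law is at most `2 ^ (b + t)` as long as one of the three cells has
density at least `2 ^ -(b + t)`. An edge is bad as soon as its cell is smaller than this or more
than `b` of its bits have been inspected; a random edge is rarely bad in the end. An adaptive
algorithm can make all three edges of one given triangle bad (by questions about the third weight in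
terms of the two others), but not of an average triangle: stop when the first of the three edges
becomes bad and apply the second moment method to the `n` triangles of this edge. A second moment
bound for the mixture over `T` shows that the bits alone do not distinguish the laws, and a covering
lemma for polynomials that agree on the hyperplane `w (T) = 0` bounds the number of triangles that
the queries can see (for arbitrary bits the weights of the bad edges are revealed and substituted
into all polynomials).
-/

set_option autoImplicit false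

namespace Pool.Agent.Helper36.Kept.BitsAndValues

open Pool.Agent.Helper22.ETModel Pool.Agent.Helper8.LK Pool.Agent.Helper7.LK
  Pool.Agent.Helper7.LKX

/-- Value queries have degree at most `d`; a sign query is a form in at most `r` weights with
coefficients at most `n ^ c` (`SparseOK`) that has at most one negative coefficient or at most one
positive coefficient or is not determined by the triangle sums (`SignOK2`); every inspected bit is a
function of the residue of the weight modulo a number `q ≤ n ^ e`, which may depend on the flags and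
the random bits. -/
def Periodic {n L R : ℕ} (A : LAlg n L R) (d r c e : ℕ) : Prop :=
  (∀ fl ρ ans f, A.next fl ρ ans = Act.query (Query.value f) → f.totalDegree ≤ d) ∧
  (∀ fl ρ ans a x, A.next fl ρ ans = Act.query (Query.sign a x) → SignOK2 n r c fl a x) ∧
  ∃ q : (Fin n → Fin n → Bool) → (Fin R → Bool) → ℕ, (∀ fl ρ, 1 ≤ q fl ρ ∧ q fl ρ ≤ n ^ e) ∧
    ∀ fl ρ ans i j φ, A.next fl ρ ans = Act.bit i j φ → ∀ z : ℤ, φ (z + q fl ρ) = φ z

/-- Value queries have degree at most `d`; a sign query is a form in at most `r` weights with
coefficients at most `n ^ c` (`SparseOK`) that is not determined by the triangle sums (`Moves`).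
There is no condition on the inspected bits, so a bit of a weight is an arbitrary `{0,1}`-valued
function of this weight. -/
def Free {n L R : ℕ} (A : LAlg n L R) (d r c : ℕ) : Prop :=
  (∀ fl ρ ans f, A.next fl ρ ans = Act.query (Query.value f) → f.totalDegree ≤ d) ∧
  ∀ fl ρ ans a x, A.next fl ρ ans = Act.query (Query.sign a x) → SparseOK n r c a x ∧ Moves fl a

/-- Admissible algorithms are periodic. -/
lemma Periodic.of_admissible {n L R : ℕ} {A : LAlg n L R} {d r c e : ℕ}
    (h : A.Admissible d r c e) : Periodic A d r c e := by
  refine ⟨h.1, fun fl ρ ans a x hq => ?_, h.2.2⟩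
  obtain ⟨h1, h2, h3, h4⟩ := h.2.1 fl ρ ans a x hq
  exact ⟨⟨h1, h2, h3⟩, Or.inl h4⟩

/-- With at most `b` inspected bits of every weight at most `n ^ 2 * b` bits are inspected in
total. -/
lemma withinTotal_of_within {n L R : ℕ} {A : LAlg n L R} {D b : ℕ} (h : A.Within D b) :
    WithinTotal A D (n ^ 2 * b) := by
  classical
  intro I hI ρ
  refine ⟨(h I hI ρ).1, ?_⟩
  have h1 : inspected A I ρ ≤ ∑ p : Fin n × Fin n, A.bits I ρ p.1 p.2 := by
    unfold LAlg.bits inspected
    simp_rw [Finset.card_filter]
    rw [Finset.sum_comm]
    refine Finset.sum_le_sum fun t _ => ?_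
    by_cases ht : ∃ i j φ, A.next I.flag ρ (A.run I ρ t).1 = Act.bit i j φ
    · rw [if_pos ht]
      obtain ⟨i, j, φ, hφ⟩ := ht
      rw [← Finset.card_filter]
      refine Finset.card_pos.2 ⟨(i, j), ?_⟩
      rw [Finset.mem_filter]
      exact ⟨Finset.mem_univ _, φ, Or.inl hφ⟩
    · rw [if_neg ht]
      exact Nat.zero_le _
  calc inspected A I ρ ≤ ∑ p : Fin n × Fin n, A.bits I ρ p.1 p.2 := h1
    _ ≤ ∑ _p : Fin n × Fin n, b := Finset.sum_le_sum fun p _ => (h I hI ρ).2 p.1 p.2
    _ = n ^ 2 * b := by simp [Fintype.card_prod, sq]

/-- Lower bounds for Exact Triangle with `B` inspected bits in total, and with `b` inspected bits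
per weight up to exceptional weights, and an upper bound, for low-degree access. -/
theorem result :
    (∀ n r c d e D L R : ℕ, r * (c + 4) + 2 * c + e ≤ 270 →
      ∀ A : LAlg n L R, (Periodic A d r c e ∨ Free A d r c) → A.Decides →
        (∀ B : ℕ, 2 ^ (2 ^ 18 * B / n ^ 2 + 20) ≤ n → WithinTotal A D B →
          (n : ℝ) ^ 3 ≤ 2 ^ (2 ^ 18 * B / n ^ 2 + 42) * (D : ℝ) * ((d : ℝ) + 1) *
            (Real.logb 2 (n : ℝ)) ^ 3) ∧
        (∀ b : ℕ, 2 ^ (b + 20) ≤ n → WithinX A D b →
          (n : ℝ) ^ 3 ≤ 2 ^ (b + 42) * (D : ℝ) * ((d : ℝ) + 1) * (Real.logb 2 (n : ℝ)) ^ 3)) ∧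
    (∀ n b d e : ℕ, 2 ≤ n → 1 ≤ b → 1 ≤ d → 2 ^ b ≤ n ^ e →
      ∃ D L : ℕ, ∃ A : LAlg n L b, Periodic A d 0 0 e ∧ A.Within D b ∧
        WithinTotal A D (n ^ 2 * b) ∧ A.Decides ∧
        (D : ℝ) ≤ 2 ^ 12 * (n : ℝ) ^ 3 * b * Real.logb 2 (n : ℝ) / (d * 2 ^ b) + 2) ∧
    (∀ n d : ℕ, 1 ≤ d →
      ∃ L : ℕ, ∃ A : LAlg n L 0, Periodic A d 0 0 0 ∧ A.Within (n ^ 3 / d + 2) 0 ∧ A.Decides) := by
  refine ⟨?_, ?_, ?_⟩
  · intro n r c d e D L R hrc A hA hdec
    have key : ∀ b : ℕ, 2 ^ (b + 20) ≤ n → WithinX A D b →
        (n : ℝ) ^ 3 ≤ 2 ^ (b + 42) * (D : ℝ) * ((d : ℝ) + 1) * (Real.logb 2 (n : ℝ)) ^ 3 := by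
      intro b hn hW
      rcases hA with ⟨hA1, hA2, hA3⟩ | ⟨hA1, hA2⟩
      · have hn18 : 2 ^ (b + 18) ≤ n :=
          le_trans (Nat.pow_le_pow_right (by norm_num) (by omega)) hn
        have h1 := lower_bound_X hrc hn18 A hA1 hA2 hA3 hW hdec
        have hn1 : (1 : ℝ) ≤ n := by
          have : 1 ≤ n := le_trans Nat.one_le_two_pow hn
          exact_mod_cast this
        have h2 : (0 : ℝ) ≤ (D : ℝ) * ((d : ℝ) + 1) * (Real.logb 2 (n : ℝ)) ^ 3 := by
          have := Real.logb_nonneg (b := 2) (by norm_num) hn1
          positivity
        have h3 : (2 : ℝ) ^ (b + 40) ≤ 2 ^ (b + 42) :=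
          pow_le_pow_right₀ (by norm_num) (by omega)
        have h4 := mul_le_mul_of_nonneg_right h3 h2
        calc (n : ℝ) ^ 3 ≤ 2 ^ (b + 40) * (D : ℝ) * ((d : ℝ) + 1) *
              (Real.logb 2 (n : ℝ)) ^ 3 := h1
          _ = 2 ^ (b + 40) * ((D : ℝ) * ((d : ℝ) + 1) * (Real.logb 2 (n : ℝ)) ^ 3) := by ring
          _ ≤ 2 ^ (b + 42) * ((D : ℝ) * ((d : ℝ) + 1) * (Real.logb 2 (n : ℝ)) ^ 3) := h4
          _ = _ := by ring
      · exact lower_bound_freeX (by omega) hn A hA1 hA2 hW hdec
    exact ⟨fun B hn hW => key _ hn hW.withinX, key⟩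
  · intro n b d e hn hb hd he
    obtain ⟨D, L, A, h1, h2, h3, h4⟩ :=
      Pool.Agent.Helper93.LK.upper_bound_bits hn hb hd he
    exact ⟨D, L, A, .of_admissible h1, h2, withinTotal_of_within h2, h3, h4⟩
  · intro n d hd
    obtain ⟨L, A, h1, h2, h3⟩ := Pool.Agent.Helper93.LK.upper_bound_zero n d hd
    exact ⟨L, A, .of_admissible h1, h2, h3⟩

end Pool.Agent.Helper36.Kept.BitsAndValues
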